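import Pool.Agent.W222.UABC.Final

/-!
# Few violations of the uniform abc inequality, over all number fields of each degree

For `κ > 0`, `c ∈ ℝ` and `n ≥ 2` we count, over ALL number fields `K` of degree `n`, the abc triples
`(x, 1 - x, -1)` with `x ∈ K`, height at most `B` and
`H > exp(c) * (δ_K * N) ^ κ` (for `κ = 1 + ε` these are the violations of the uniform abc
inequality). The proof combines

* a count, uniform in the field `K` of degree `n`, of the triples with given size and radical: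
  at most `C * exp(2/3 * R + ε * X)` for radical `≤ exp(R)` and (relative) size `≤ exp(X)`
  (uniform counts of pairs of ideals and of units, the latter by packing the logarithmic
  embedding into boxes),
* bounds for the number of fields of degree `n` and discriminant at most `X`:
  `X ^ ((n + 2) * (n - 1) / (4 * (n - n / p)))`, `p` the least prime factor of `n`, proved here by
  a Schmidt type argument, and `X ^ O(log ^ 2 n)`,
* a count of characteristic polynomials: the values at `0`, `-1` and the leading coefficient of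
  the primitive integral multiple of the characteristic polynomial of `x / (1 - x)` are norms of
  ideals, so that they have small radicals. This is better for fields with large discriminant,
  because then the radical is much smaller than the height.
-/

set_option autoImplicit false

namespace Pool.Agent.Results.MP_6e34ef_nt.FewViolators

open NumberField IsDedekindDomain

section Defs

variable {K : Type} [Field K] [NumberField K]

/-- `log H(x_0, x_1, x_2)` -/
noncomputable def height (x : Fin 3 → K) : ℝ :=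
  (∑ w : InfinitePlace K, (w.mult : ℝ) * Real.log (max (w (x 0)) (max (w (x 1)) (w (x 2)))) +
    ∑ᶠ v : HeightOneSpectrum (𝓞 K), Real.log
      (max (FinitePlace.mk v (x 0)) (max (FinitePlace.mk v (x 1)) (FinitePlace.mk v (x 2))))) /
    (Module.finrank ℚ K : ℝ)

/-- `log N(x_0, x_1, x_2)` -/
noncomputable def conductor (x : Fin 3 → K) : ℝ :=
  (∑ᶠ (v : HeightOneSpectrum (𝓞 K)) (_ : ¬ (FinitePlace.mk v (x 0) = FinitePlace.mk v (x 1) ∧
      FinitePlace.mk v (x 1) = FinitePlace.mk v (x 2))),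
    Real.log (Ideal.absNorm v.asIdeal : ℝ)) / (Module.finrank ℚ K : ℝ)

variable (K) in
/-- `log δ_K` -/
noncomputable def rootDisc : ℝ := Real.log |(NumberField.discr K : ℝ)| / (Module.finrank ℚ K : ℝ)

end Defs

/-- The pairs `(K, x)` of a subfield `K` of degree `n` of the algebraic closure of `ℚ` and
`x ∈ K`, `x ≠ 0, 1`, with `H ≤ B` and `H > exp(c) * (δ_K * N) ^ κ` for the triple
`(x, 1 - x, -1)`. -/
def Viol (n : ℕ) (κ c B : ℝ) :
    Set (IntermediateField ℚ (AlgebraicClosure ℚ) × AlgebraicClosure ℚ) :=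
  {p | ∃ (_ : NumberField p.1) (x : p.1), (x : AlgebraicClosure ℚ) = p.2 ∧
    Module.finrank ℚ p.1 = n ∧ x ≠ 0 ∧ x ≠ 1 ∧ height ![x, 1 - x, -1] ≤ Real.log B ∧
    c + κ * (rootDisc p.1 + conductor ![x, 1 - x, -1]) < height ![x, 1 - x, -1]}

/-- The algebraic numbers `x` which occur in `Viol`. -/
def Points (n : ℕ) (κ c B : ℝ) : Set (AlgebraicClosure ℚ) :=
  {x | ∃ K : IntermediateField ℚ (AlgebraicClosure ℚ), (K, x) ∈ Viol n κ c B}

/-- The exponent `(n + 2) * (n - 1) / (4 * (n - n / p))`, `p` the least prime factor of `n`; it is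
`1`, `5 / 4`, `9 / 4`, `7 / 4` for `n = 2, 3, 4, 5`, and `(n + 2) / 4` for every prime `n`. -/
noncomputable def expo (n : ℕ) : ℝ :=
  (((n + 2) * (n - 1) : ℕ) : ℝ) / (4 * ((n - n / n.minFac : ℕ) : ℝ))

theorem points_eq (n : ℕ) (κ c B : ℝ) :
    Points n κ c B = Prod.snd '' Pool.Agent.W222.UABC.Viol n κ c B := by
  ext x
  constructor
  · rintro ⟨K, h⟩
    exact ⟨(K, x), h, rfl⟩
  · rintro ⟨⟨K, y⟩, h, rfl⟩
    exact ⟨K, h⟩

theorem points (n : ℕ) (hn : 2 ≤ n) (κ c δ θ : ℝ) (hκ : 0 < κ) (hδ : 0 < δ) (hθ : 0 ≤ θ)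
    (h : κ * ((n : ℝ) - 2) + 1 / 3 ≤ θ * (expo n + 1 / 3)) :
    ∃ M : ℝ, ∀ B : ℝ, 1 ≤ B → (Points n κ c B).Finite ∧
      ((Points n κ c B).ncard : ℝ) ≤
        M * B ^ ((n : ℝ) / κ * (2 / 3 + (expo n - 2 / 3) * θ) + δ) := by
  obtain ⟨M, hM⟩ := Pool.Agent.W222.UABC.points_bound n hn κ c δ θ hκ hδ hθ h
  refine ⟨M, fun B hB => ?_⟩
  rw [points_eq]
  exact hM B hB

theorem expo_two : expo 2 = 1 := by
  unfold expo
  have : Nat.minFac 2 = 2 := by norm_num
  rw [this]
  norm_num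

/-- **Main theorem.** (A) The number of violations over the number fields of degree `n` and of
height at most `B` is at most `M * B ^ (n * e n / κ + δ)`, where `e n ≤ expo n` for all `n ≥ 2` and
`e n = O(log ^ 2 n)`. (B) The number of algebraic numbers `x` of height at most `B` which violate
the inequality in some field of degree `n` is at most
`M * B ^ (n / κ * (2 / 3 + (expo n - 2 / 3) * θ) + δ)` whenever
`θ ≥ (κ * (n - 2) + 1 / 3) / (expo n + 1 / 3)`. (C) For quadratic fields this is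
`M * B ^ (3 / (2 * κ) + δ)`. -/
theorem result :
    (∃ e : ℕ → ℝ,
      (∀ c : ℝ, 1 / (8 * (Real.log 2) ^ 2) < c →
        ∀ᶠ n : ℕ in Filter.atTop, e n ≤ c * (Real.log n) ^ 2) ∧
      (∀ n : ℕ, 2 ≤ n → e n ≤ expo n) ∧
      ∀ n : ℕ, 2 ≤ n → ∀ κ c δ : ℝ, 0 < κ → 0 < δ →
        ∃ M : ℝ, ∀ B : ℝ, 1 ≤ B → (Viol n κ c B).Finite ∧
          ((Viol n κ c B).ncard : ℝ) ≤ M * B ^ ((n : ℝ) * e n / κ + δ)) ∧
    (∀ n : ℕ, 2 ≤ n → ∀ κ c δ θ : ℝ, 0 < κ → 0 < δ → 0 ≤ θ →
      κ * ((n : ℝ) - 2) + 1 / 3 ≤ θ * (expo n + 1 / 3) →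
      ∃ M : ℝ, ∀ B : ℝ, 1 ≤ B → (Points n κ c B).Finite ∧
        ((Points n κ c B).ncard : ℝ) ≤
          M * B ^ ((n : ℝ) / κ * (2 / 3 + (expo n - 2 / 3) * θ) + δ)) ∧
    (∀ κ c δ : ℝ, 0 < κ → 0 < δ →
      ∃ M : ℝ, ∀ B : ℝ, 1 ≤ B → (Points 2 κ c B).Finite ∧
        ((Points 2 κ c B).ncard : ℝ) ≤ M * B ^ (3 / (2 * κ) + δ)) := by
  refine ⟨Pool.Agent.W222.UABC.viol_all,
    fun n hn κ c δ θ hκ hδ hθ h => points n hn κ c δ θ hκ hδ hθ h, fun κ c δ hκ hδ => ?_⟩
  obtain ⟨M, hM⟩ := points 2 le_rfl κ c δ (1 / 4) hκ hδ (by norm_num) (by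
    rw [expo_two]
    norm_num)
  refine ⟨M, fun B hB => ?_⟩
  have h := hM B hB
  rw [expo_two] at h
  have h2 : ((2 : ℕ) : ℝ) / κ * (2 / 3 + (1 - 2 / 3) * (1 / 4)) + δ = 3 / (2 * κ) + δ := by
    push_cast
    field_simp
    ring
  rw [h2] at h
  exact h

end Pool.Agent.Results.MP_6e34ef_nt.FewViolators
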